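import Pool.Agent.H246K2.Stubs

/-!
# Exposed blocks in lattice polygons: definitions and the statements of the tasks

Cells are cubes of side `2 L + 3` around the points of `(2 L + 5) ℤ³`. A cell is occupied by a block
if the polygon meets it only in a block `bw v b d f` attached from outside at the centre of a face.
-/

set_option autoImplicit false

namespace KN

open Finset Filter Topology
open scoped Classical

noncomputable section

namespace EQ

/-- centre of the cell `c` -/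
def ctr (L : ℕ) (c : Z3) : Z3 :=
  ((2 * (L : ℤ) + 5) * c.1, (2 * (L : ℤ) + 5) * c.2.1, (2 * (L : ℤ) + 5) * c.2.2)

/-- `p` is in the cell `c` -/
def inC (L : ℕ) (c p : Z3) : Prop := near (L + 1) p (ctr L c)

/-- `p` is in the enlarged cell `c` (the enlarged cells are disjoint) -/
def inP (L : ℕ) (c p : Z3) : Prop := near (L + 2) p (ctr L c)

/-- a hairpin (in place of the edge `zp`) -/
def hpn (k : ℕ) : List Dir := List.replicate k .xm ++ .zp :: List.replicate k .xp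

/-- two small right polygons of the same length, the first one is a hairpin -/
structure Core (L k : ℕ) (v : Bool → List Dir) : Prop where
  sm : ∀ b, SmR L (v b)
  hp : v false = hpn k
  len : (v true).length = 2 * k + 1
  ne : v true ≠ v false

/-- the block of type `b` in direction `d` on an edge `f` -/
def bw (v : Bool → List Dir) (b : Bool) (d f : Dir) : List Dir := (blk 0 (v b)).map (rt d f)

/-- the cell `c` is occupied by the block of type `b` between `l1` and `l2` -/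
structure Occ (L : ℕ) (v : Bool → List Dir) (w : List Dir) (c : Z3) (b : Bool) (d f : Dir)
    (l1 l2 : List Dir) : Prop where
  pf : perp d f
  eq : w = l1 ++ bw v b d f ++ l2
  root : pos l2 + ((L : ℤ) + 2) • vec d = ctr L c
  av : ∀ p ∈ path (l1 ++ f :: l2), ¬ inC L c p

/-- the cell `c` is occupied by a block of type `b` -/
def Has (L : ℕ) (v : Bool → List Dir) (w : List Dir) (c : Z3) (b : Bool) : Prop :=
  ∃ (d f : Dir) (l1 l2 : List Dir), Occ L v w c b d f l1 l2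

/-- a large box of cells -/
def bigB (N : ℕ) : Finset Z3 :=
  Icc (-(N : ℤ)) N ×ˢ Icc (-(N : ℤ)) N ×ˢ Icc (-(N : ℤ)) N

/-- the cells occupied by blocks of type `b` -/
def Gs (L : ℕ) (v : Bool → List Dir) (b : Bool) (w : List Dir) : Finset Z3 :=
  (bigB (w.length + L + 2)).filter (fun c => Has L v w c b)

/-! ## Part A: words -/

/-- A1: occupied cells are in the large box -/
def P_mem : Prop := ∀ (L : ℕ) (v : Bool → List Dir) (b : Bool) (w : List Dir) (c : Z3),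
  c ∈ Gs L v b w ↔ Has L v w c b

/-- A2: where the vertices of a block are. `bw v b d f` replaces the edge `f`, all its vertices are
in the enlarged cell, the inner ones are in the cell -/
def P_in : Prop := ∀ (L k : ℕ) (v : Bool → List Dir), Core L k v → ∀ (c : Z3) (b : Bool)
  (d f : Dir) (q : Z3), perp d f → q + ((L : ℤ) + 2) • vec d = ctr L c →
  pos (bw v b d f) = vec f ∧ (bw v b d f).length = 2 * k + 3 ∧
  (∀ p ∈ path (bw v b d f), inP L c (q + p)) ∧
  (∀ p ∈ path (bw v b d f), p = 0 ∨ p = vec f ∨ inC L c (q + p)) ∧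
  ∀ i : ℕ, 1 ≤ i → i ≤ 2 * k + 2 → inC L c (q + pos ((bw v b d f).drop i))

/-- A3: two subwalks without common vertices are disjoint as subwords -/
def P_fac : Prop := ∀ A X B C Y D : List Dir, A ++ X ++ B = C ++ Y ++ D →
  (∀ p ∈ path X, ∀ q ∈ path Y, pos B + p ≠ pos D + q) →
  (∃ m, A = C ++ Y ++ m ∧ D = m ++ X ++ B) ∨ ∃ m, B = m ++ Y ++ D ∧ C = A ++ X ++ m

/-- A4: a cell is occupied in at most one way -/
def P_uniq : Prop := ∀ (L k : ℕ) (v : Bool → List Dir), Core L k v → ∀ (w : List Dir) (c : Z3),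
  SAP w → ∀ (b b' : Bool) (d f d' f' : Dir) (l1 l2 l1' l2' : List Dir),
  Occ L v w c b d f l1 l2 → Occ L v w c b' d' f' l1' l2' →
  b = b' ∧ d = d' ∧ f = f' ∧ l1 = l1' ∧ l2 = l2'

/-- A5: exchange of a block -/
def P_xch : Prop := ∀ (L k : ℕ) (v : Bool → List Dir), Core L k v → ∀ (w : List Dir) (c : Z3)
  (b : Bool) (d f : Dir) (l1 l2 : List Dir), SAP w → 2 * k + 8 ≤ w.length →
  Occ L v w c b d f l1 l2 →
  SAP (l1 ++ bw v (!b) d f ++ l2) ∧ (l1 ++ bw v (!b) d f ++ l2).length = w.length ∧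
  Occ L v (l1 ++ bw v (!b) d f ++ l2) c (!b) d f l1 l2 ∧
  ∀ (c' : Z3) (b' : Bool), c' ≠ c →
    (Has L v w c' b' ↔ Has L v (l1 ++ bw v (!b) d f ++ l2) c' b')

/-- A6: rotations -/
def P_rot : Prop := ∀ (L k : ℕ) (v : Bool → List Dir), Core L k v → ∀ (b : Bool) (w : List Dir)
  (d f : Dir), perp d f → (Gs L v b (w.map (rt d f))).card = (Gs L v b w).card

/-- A7: a local change of the word creates few occupied cells -/
def P_chg : Prop := ∀ (L k : ℕ) (v : Bool → List Dir), Core L k v → ∀ (b : Bool)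
  (A X Y B : List Dir), pos X = pos Y →
  (Gs L v b (A ++ Y ++ B)).card ≤ (Gs L v b (A ++ X ++ B)).card + (X.length + Y.length + 2)

/-! ## Part B: insertion of a block of type `false` into a cell near a spot -/

/-- B1: a hairpin on the edge `f` in direction `d` -/
def P_hair : Prop := ∀ (d f : Dir) (T : ℕ) (l1 l2 : List Dir), perp d f →
  SAP (l1 ++ f :: l2) →
  (∀ j : ℕ, 1 ≤ j → j ≤ T → pos l2 + (j : ℤ) • vec d ∉ path (l1 ++ f :: l2) ∧
    pos l2 + (j : ℤ) • vec d + vec f ∉ path (l1 ++ f :: l2)) →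
  SAP (l1 ++ (List.replicate T (neg d) ++ f :: (List.replicate T d ++ l2))) ∧
  Same (vl (l1 ++ f :: l2))
    (vl (l1 ++ (List.replicate T (neg d) ++ f :: (List.replicate T d ++ l2)))) ∧
  ∀ p, p ∈ path (l1 ++ (List.replicate T (neg d) ++ f :: (List.replicate T d ++ l2))) ↔
    p ∈ path (l1 ++ f :: l2) ∨
    ∃ j : ℕ, 1 ≤ j ∧ j ≤ T ∧ (p = pos l2 + (j : ℤ) • vec d ∨ p = pos l2 + (j : ℤ) • vec d + vec f)

/-- the part of the route after the block -/
def pre (s t2 t3 : ℕ) : List Dir :=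
  List.replicate s .xm ++ List.replicate t3 .zm ++ List.replicate t2 .ym

/-- the part of the route before the block -/
def post (s t2 t3 : ℕ) : List Dir :=
  List.replicate t2 .yp ++ List.replicate (t3 + 1) .zp ++ List.replicate (s + 1) .xp

/-- B2: insertion of a block of type `false` into a cell near a spot -/
def P_ins : Prop := ∀ (L k : ℕ) (v : Bool → List Dir), Core L k v → ∀ l1 l2 : List Dir,
  Spot (8 * L + 20) (4 * L + 8) l1 l2 →
  ∃ (a t2 t3 : ℕ) (c : Z3), a < 2 * L + 5 ∧ t2 < 2 * L + 5 ∧ t3 < 2 * L + 5 ∧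
    SAP (l1 ++ pre (9 * L + 21 + a) t2 t3 ++ bw v false .yp .xm ++
      (post (9 * L + 21 + a) t2 t3 ++ l2)) ∧
    Same (vl (l1 ++ .zp :: l2)) (vl (l1 ++ pre (9 * L + 21 + a) t2 t3 ++ bw v false .yp .xm ++
      (post (9 * L + 21 + a) t2 t3 ++ l2))) ∧
    Occ L v (l1 ++ pre (9 * L + 21 + a) t2 t3 ++ bw v false .yp .xm ++
      (post (9 * L + 21 + a) t2 t3 ++ l2)) c false .yp .xm (l1 ++ pre (9 * L + 21 + a) t2 t3)
      (post (9 * L + 21 + a) t2 t3 ++ l2)

/-! ## Part C: topology -/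

/-- C1: the hairpin is unknotted -/
def P_hpn : Prop := ∀ k : ℕ, 1 ≤ k → SAP (.zm :: hpn k) ∧ Same (vl (.zm :: hpn k)) sq

/-- C2: an occupied cell is a connected summand -/
def P_top : Prop := ∀ (L k : ℕ) (v : Bool → List Dir), Core L k v → ∀ (w : List Dir) (c : Z3)
  (b : Bool) (d f : Dir) (l1 l2 : List Dir), SAP w → 2 * k + 8 ≤ w.length →
  Occ L v w c b d f l1 l2 →
  SAP (l1 ++ f :: l2) ∧ ∃ m1 m2 : List Dir, (∀ b', Facing m1 (v b') m2) ∧
    Same (vl (l1 ++ f :: l2)) (vl (m1 ++ .zp :: m2)) ∧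
    Same (vl w) (vl (join m1 (v b) m2))

/-- C3: existence of cores -/
def P_core : Prop := ∀ K : List V, (∃ w, SAP w ∧ Same (vl w) K) → ¬ Same K sq →
  ∃ (L k : ℕ) (v : Bool → List Dir), Core L k v ∧ Same (vl (.zm :: v true)) K

/-! ## Part D: counting -/

/-- number of words of class `Q` with at most `S` cells occupied by blocks of type `false` -/
def bS (Q : List Dir → Prop) (L : ℕ) (v : Bool → List Dir) (n S : ℕ) : ℕ :=
  ((K Q n).filter (fun w => (Gs L v false w).card ≤ S)).card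

/-- D1: from contacts to spots -/
def P_cnt : Prop := ∀ Q : List Dir → Prop, KClass Q → ∀ (L k : ℕ) (v : Bool → List Dir),
  Core L k v → ∀ (T L' n S : ℕ) (C : List Dir → Finset Z3),
  (∀ w ∈ K Q n, ∀ x ∈ C w, ∃ (d f : Dir) (l1 l2 : List Dir), Gd T L' w d f l1 l2 ∧
    near 6 (pos l2) (Rp d f x)) →
  ∑ w ∈ (K Q n).filter (fun w => (Gs L v false w).card ≤ S), (C w).card ≤
    36 * 3 * 13 ^ 3 * ∑ w ∈ (K Q n).filter (fun w => (Gs L v false w).card ≤ S + 6),
      (spots T L' w).card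

/-- the increment of the length -/
def inc (L k a t2 t3 : ℕ) : ℕ := 2 * (9 * L + 21 + a) + 2 * t2 + 2 * t3 + 2 * k + 4

/-- D2: from spots to occupied cells -/
def P_cel : Prop := ∀ Q : List Dir → Prop, KClass Q → ∀ (L k : ℕ) (v : Bool → List Dir),
  Core L k v → ∀ n S : ℕ,
  ∑ w ∈ (K Q n).filter (fun w => (Gs L v false w).card ≤ S),
      (spots (8 * L + 20) (4 * L + 8) w).card ≤
    ∑ a ∈ range (2 * L + 5), ∑ t2 ∈ range (2 * L + 5), ∑ t3 ∈ range (2 * L + 5),
      (S + 200 * (L + 1) + 2 * k) *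
        bS Q L v (n + inc L k a t2 t3) (S + 200 * (L + 1) + 2 * k)

/-- D3: one step -/
def P_one : Prop := ∀ Q : List Dir → Prop, KClass Q → ∀ (L k : ℕ) (v : Bool → List Dir),
  Core L k v → ∃ (c : ℝ) (κ E : ℕ), 0 < c ∧ ∀ᶠ n : ℕ in atTop, ∀ S : ℕ,
    c * (n : ℝ) ^ (2 / 3 : ℝ) * (bS Q L v n S : ℝ) ≤
      ((S : ℝ) + κ) * ∑ e ∈ range E, (bS Q L v (n + 2 * e) (S + κ) : ℝ)

/-- D4: ratios are bounded -/
def P_rat : Prop := ∀ Q : List Dir → Prop, KClass Q → CSum Q → (∃ w, SAP w ∧ Q w) →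
  ∃ A : ℝ, 1 ≤ A ∧ ∀ᶠ j : ℕ in atTop, 0 < a Q (2 * j) ∧
    (a Q (2 * j + 2) : ℝ) ≤ A * a Q (2 * j)

/-- D5: most words have many occupied cells -/
def P_exp : Prop := ∀ Q : List Dir → Prop, KClass Q → CSum Q → (∃ w, SAP w ∧ Q w) →
  ∀ (L k : ℕ) (v : Bool → List Dir), Core L k v → ∃ δ : ℝ, 0 < δ ∧ ∀ᶠ j : ℕ in atTop,
    ∀ S : ℕ, (S : ℝ) ≤ δ * (2 * j : ℝ) ^ (2 / 3 : ℝ) →
      (bS Q L v (2 * j) S : ℝ) ≤ Real.exp (-δ * (2 * j : ℝ) ^ (2 / 3 : ℝ)) * a Q (2 * j)

/-! ## Part E: exchange of blocks, abstract version -/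

/-- a system of commuting exchanges: `σ c` changes the type of the block at `c`; the exchange
`false → true` adds `κ` to `ν` -/
structure Ex {α C A : Type} [AddCommGroup A] (Ω : Finset α) (G : Bool → α → Finset C)
    (σ : C → α → α) (ν : α → A) (κ : A) : Prop where
  dj : ∀ w ∈ Ω, Disjoint (G false w) (G true w)
  mem : ∀ w ∈ Ω, ∀ b, ∀ c ∈ G b w, σ c w ∈ Ω ∧ σ c (σ c w) = w
  oth : ∀ w ∈ Ω, ∀ b, ∀ c ∈ G b w, ∀ c', c' ≠ c → ∀ b', (c' ∈ G b' (σ c w) ↔ c' ∈ G b' w)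
  own : ∀ w ∈ Ω, ∀ b, ∀ c ∈ G b w, c ∈ G (!b) (σ c w) ∧ c ∉ G b (σ c w)
  val : ∀ w ∈ Ω, ∀ c ∈ G false w, ν (σ c w) = ν w + κ

/-- E1: character sums -/
def P_chr : Prop := ∀ (α C A : Type) [AddCommGroup A] (Ω : Finset α) (G : Bool → α → Finset C)
  (σ : C → α → α) (ν : α → A) (κ : A), Ex Ω G σ ν κ → ∀ χ : A → ℂ,
  (∀ x y, χ (x + y) = χ x * χ y) → (∀ x, ‖χ x‖ = 1) →
  ‖∑ w ∈ Ω, χ (ν w)‖ ≤ ∑ w ∈ Ω, (‖1 + χ κ‖ / 2) ^ ((G false w).card + (G true w).card)

/-- E2: no value is taken too often -/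
def P_max : Prop := ∀ (α C A : Type) [AddCommGroup A] (Ω : Finset α) (G : Bool → α → Finset C)
  (σ : C → α → α) (ν : α → A) (κ : A), Ex Ω G σ ν κ → (∀ m : ℕ, 0 < m → m • κ ≠ 0) → ∀ g : A,
  ((Ω.filter (fun w => ν w = g)).card : ℝ) ≤
    ∑ w ∈ Ω, (((G false w).card + (G true w).card).choose
      (((G false w).card + (G true w).card) / 2) : ℝ) /
        2 ^ ((G false w).card + (G true w).card)

/-- E3: upward exchanges -/
def P_up : Prop := ∀ (α C : Type) (Z : ℕ → Finset α) (G : Bool → α → Finset C)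
  (σ : C → α → α) (S : ℕ),
  (∀ N, ∀ w ∈ Z N, (G true w).card = N ∧ S ≤ (G false w).card + (G true w).card) →
  (∀ N, ∀ w ∈ Z N, ∀ c ∈ G false w, σ c w ∈ Z (N + 1) ∧ c ∈ G true (σ c w) ∧
    σ c (σ c w) = w) →
  ∀ N : ℕ, S.choose N * (Z 0).card ≤ (Z N).card

/-- E4: from character sums to equidistribution -/
def P_equi : Prop := ∀ (A : Type) [AddCommGroup A] [Fintype A] (α : Type) (Ω : Finset α)
  (ν : α → A) (ε : ℝ), 0 ≤ ε →
  (∀ χ : AddChar A ℂ, χ ≠ 0 → ‖∑ w ∈ Ω, χ (ν w)‖ ≤ ε * Ω.card) → ∀ g : A,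
  |((Ω.filter (fun w => ν w = g)).card : ℝ) - (Ω.card : ℝ) / Fintype.card A| ≤ ε * Ω.card

/-- the exchange of the block in the cell `c` -/
def xc (L : ℕ) (v : Bool → List Dir) (c : Z3) (w : List Dir) : List Dir :=
  if h : ∃ (b : Bool) (d f : Dir) (l1 l2 : List Dir), Occ L v w c b d f l1 l2 then
    h.choose_spec.choose_spec.choose_spec.choose ++ bw v (!h.choose) h.choose_spec.choose
      h.choose_spec.choose_spec.choose ++
      h.choose_spec.choose_spec.choose_spec.choose_spec.choose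
  else w

/-- E5: the exchange of blocks in words -/
def P_sig : Prop := ∀ (L k : ℕ) (v : Bool → List Dir), Core L k v → ∀ w : List Dir, SAP w →
  2 * k + 8 ≤ w.length → Disjoint (Gs L v false w) (Gs L v true w) ∧
  ∀ (b : Bool), ∀ c ∈ Gs L v b w, SAP (xc L v c w) ∧ (xc L v c w).length = w.length ∧
    xc L v c (xc L v c w) = w ∧
    (∀ c' : Z3, c' ≠ c → ∀ b' : Bool, (c' ∈ Gs L v b' (xc L v c w) ↔ c' ∈ Gs L v b' w)) ∧
    (c ∈ Gs L v (!b) (xc L v c w) ∧ c ∉ Gs L v b (xc L v c w)) ∧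
    ∃ m1 m2 : List Dir, SAP (m1 ++ .zp :: m2) ∧ (∀ b', Facing m1 (v b') m2) ∧
      SAP (join m1 (v true) m2) ∧
      (b = false → Same (vl w) (vl (m1 ++ .zp :: m2)) ∧
        Same (vl (xc L v c w)) (vl (join m1 (v true) m2))) ∧
      (b = true → Same (vl w) (vl (join m1 (v true) m2)) ∧
        Same (vl (xc L v c w)) (vl (m1 ++ .zp :: m2)))

end EQ

end

end KN
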